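import Pool.Agent.Run7.h16.UF.Main
import Pool.Agent.Run7.h16.MQ.Main

/-!
# Extensions by direct products of wreath products `T ≀ S_n`, `n ≥ 7`
-/

set_option autoImplicit false

namespace Run7.h16.UF

open Nfff32c05
open Pool.Agent.H391R2 (Wr isRealizable_of isRealizable_quotient)
open Pool.Agent.H391R2.T4 (HilbField finite_wr hilb_numberField)
open Pool.Agent.TH59.WX (finite_of_kernel exists_gal_of)
open Pool.Agent.TH444.ML
open Run7.h16.MQ

/-- Realizability over Hilbertian fields. -/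
theorem UnivF.real {T : Type} [Group T] (h : UnivF T) (K : Type) [Field K]
    (hK : HilbField K) (X : Type) [Group X] (N : Subgroup X) [N.Normal]
    (hN : Nonempty (N ≃* T)) (hfin : Finite (X ⧸ N)) :
    IsRealizable K X ↔ IsRealizable K (X ⧸ N) := by
  have hfinT : Finite T := h.main.1
  have hfinN : Finite N := Finite.of_equiv _ hN.some.symm.toEquiv
  have hfinX : Finite X := Finite.of_subgroup_quotient N
  constructor
  · intro h
    obtain ⟨L, i1, i2, i3, i4, ⟨f⟩⟩ := exists_gal_of K X h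
    exact isRealizable_quotient L ((QuotientGroup.mk' N).comp f.symm.toMonoidHom)
      ((QuotientGroup.mk'_surjective N).comp f.symm.surjective)
  · intro h5
    obtain ⟨L, i1, i2, i3, i4, ⟨f⟩⟩ := exists_gal_of K (X ⧸ N) h5
    let β : X →* (L ≃ₐ[K] L) := f.toMonoidHom.comp (QuotientGroup.mk' N)
    have hβ : Function.Surjective β := f.surjective.comp (QuotientGroup.mk'_surjective N)
    have hker : β.ker = N := by
      ext x
      rw [MonoidHom.mem_ker]
      change f (QuotientGroup.mk' N x) = 1 ↔ x ∈ N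
      rw [map_eq_one_iff f f.injective, QuotientGroup.mk'_apply, QuotientGroup.eq_one_iff]
    obtain ⟨F, j1, j2, j3, j4, j5, j6, γ, -⟩ :=
      h.hil K hK L X β hβ ⟨(MulEquiv.subgroupCongr hker).trans hN.some⟩
    exact isRealizable_of F γ.symm

theorem fact_bound7 {n : ℕ} (hn : 7 ≤ n) : 16 * n ^ 2 * (n - 4).factorial ≤ n.factorial := by
  obtain ⟨m, rfl⟩ := Nat.exists_eq_add_of_le hn
  have e1 : 7 + m - 4 = 3 + m := by omega
  have e2 : (7 + m).factorial =
      (7 + m) * ((6 + m) * ((5 + m) * ((4 + m) * (3 + m).factorial))) := by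
    rw [show 7 + m = (6 + m) + 1 by ring, Nat.factorial_succ,
      show 6 + m = (5 + m) + 1 by ring, Nat.factorial_succ,
      show 5 + m = (4 + m) + 1 by ring, Nat.factorial_succ,
      show 4 + m = (3 + m) + 1 by ring, Nat.factorial_succ]
  rw [e1, e2]
  have h1 : 16 * (7 + m) ≤ (6 + m) * ((5 + m) * (4 + m)) := by nlinarith [Nat.zero_le (m ^ 3)]
  calc 16 * (7 + m) ^ 2 * (3 + m).factorial =
      (7 + m) * (16 * (7 + m)) * (3 + m).factorial := by ring
    _ ≤ (7 + m) * ((6 + m) * ((5 + m) * (4 + m))) * (3 + m).factorial := by gcongr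
    _ = _ := by ring

theorem wr_size7 {g n : ℕ} (hn : 7 ≤ n) :
    16 * (g * n) ^ 2 * (g ^ (n - 2) * (n - 4).factorial) ≤ g ^ n * n.factorial := by
  have h1 : g ^ n = g ^ 2 * g ^ (n - 2) := by
    rw [← pow_add]
    congr 1
    omega
  calc 16 * (g * n) ^ 2 * (g ^ (n - 2) * (n - 4).factorial) =
      g ^ 2 * g ^ (n - 2) * (16 * n ^ 2 * (n - 4).factorial) := by ring
    _ ≤ g ^ 2 * g ^ (n - 2) * n.factorial := Nat.mul_le_mul_left _ (fact_bound7 hn)
    _ = _ := by rw [h1]

/-- The product of wreath products has a small core-free subgroup. -/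
theorem prod_small7 {I : Type} [Fintype I] [Nonempty I] (G : I → Type) [∀ i, Group (G i)]
    [∀ i, Finite (G i)] (n : I → ℕ) (hn : ∀ i, 7 ≤ n i) (q : ℕ) (hq0 : 0 < q)
    (hq : q ≤ ∏ i, (Nat.card (G i) ^ (n i - 2) * (n i - 4).factorial)) :
    ∃ U : Subgroup (∀ i, Wr (G i) (n i)), U.normalCore = ⊥ ∧
      8 * U.index * (U.index * q + 1) ≤ Nat.card (∀ i, Wr (G i) (n i)) := by
  classical
  have hf : ∀ i, Finite (Wr (G i) (n i)) := fun i => finite_wr (G i) (n i)
  choose U hU hi using fun i => wr_core (G i) (n i) (by have := hn i; omega)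
  obtain ⟨h1, h2⟩ := core_pi (fun i => Wr (G i) (n i)) U hU
  refine ⟨_, h1, ?_⟩
  rw [h2]
  have h3 : ∏ i, (U i).index = ∏ i, (Nat.card (G i) * n i) := Finset.prod_congr rfl fun i _ => hi i
  rw [h3, Nat.card_pi]
  have h4 : 0 < ∏ i, (Nat.card (G i) * n i) := Finset.prod_pos fun i _ => by
    have := hn i
    have h5 : 0 < Nat.card (G i) := Nat.card_pos
    have : 0 < n i := by omega
    positivity
  set u := ∏ i, (Nat.card (G i) * n i) with hu
  have h6 : 8 * u * (u * q + 1) ≤ 16 * u ^ 2 * q := by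
    have : 1 ≤ u * q := Nat.mul_pos h4 hq0
    calc 8 * u * (u * q + 1) ≤ 8 * u * (u * q + u * q) := by gcongr
      _ = 16 * u ^ 2 * q := by ring
  refine h6.trans ?_
  have h7 : 16 ≤ ∏ _i : I, 16 := by
    rw [Finset.prod_const]
    exact Nat.le_self_pow (Finset.card_pos.2 ⟨Classical.arbitrary I, Finset.mem_univ _⟩).ne' 16
  calc 16 * u ^ 2 * q ≤ (∏ _i : I, 16) * u ^ 2 *
        ∏ i, (Nat.card (G i) ^ (n i - 2) * (n i - 4).factorial) := by gcongr
    _ = ∏ i, (16 * (Nat.card (G i) * n i) ^ 2 *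
        (Nat.card (G i) ^ (n i - 2) * (n i - 4).factorial)) := by
      rw [hu, ← Finset.prod_pow, ← Finset.prod_mul_distrib, ← Finset.prod_mul_distrib]
    _ ≤ ∏ i, Nat.card (Wr (G i) (n i)) := by
      refine Finset.prod_le_prod' fun i _ => ?_
      rw [card_wr]
      exact wr_size7 (hn i)

theorem prod_data7 {I : Type} [Fintype I] [Nonempty I] (T : I → Type) [∀ i, Group (T i)]
    [∀ i, Nontrivial (T i)] (hT : ∀ i, UnivF (T i)) (n : I → ℕ) (hn : ∀ i, 7 ≤ n i)
    (X : Type) [Group X] (N : Subgroup X) [N.Normal]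
    (hN : Nonempty (N ≃* ∀ i, Wr (T i) (n i))) (hfin : Finite (X ⧸ N))
    (hq : Nat.card (X ⧸ N) ≤ ∏ i, (Nat.card (T i) ^ (n i - 2) * (n i - 4).factorial)) :
    Data X ∧ ∀ (K : Type) [Field K] [NumberField K], IsRealizable K X ↔ IsRealizable K (X ⧸ N) := by
  have hfT : ∀ i, Finite (T i) := fun i => (hT i).main.1
  have hW : UnivF (∀ i, Wr (T i) (n i)) := UnivF.prod I _ fun i => UnivF.power (T i) (hT i) (n i) (hn i)
  have hfW : Finite (∀ i, Wr (T i) (n i)) := hW.main.1
  have hfN : Finite N := Finite.of_equiv _ hN.some.symm.toEquiv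
  have hfX : Finite X := Finite.of_subgroup_quotient N
  obtain ⟨U, hU, hc⟩ := prod_small7 T n hn (Nat.card (X ⧸ N)) Nat.card_pos hq
  obtain ⟨h1, h2⟩ := small_ext N hN.some U hU hc
  exact ⟨⟨hfX, h1, h2⟩, fun K _ _ => hW.real K (hilb_numberField K) X N hN hfin⟩

end Run7.h16.UF
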