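import Pool.Agent.Run7.h16.UF.Def
import Pool.Agent.Run7.h16.UP.Base
import Pool.Agent.N600.UK.Main
import Pool.Agent.TH444.TW.Fin

/-!
# The groups of the class are kernels of solvable embedding problems only
-/

set_option autoImplicit false

namespace Run7.h16.UF

open Pool.Agent.H391R2 (Wr)
open Pool.Agent.H391R2.T4 (RegSol finite_wr HilbField)
open Pool.Agent.TH59.WX (GoodKer finite_of_kernel hil_of_reg)
open Pool.Agent.TH444.TW (RSK infinite_of_hilb)
open Pool.Agent.TH15.IGP (Lim)
open Pool.Agent.TH377.IG (SpecProp spec_hilb)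
open Pool.Agent.N600.UK
open Run7.h16.UP (aut_inner eq_one_of_cent base_char)

/-- The symmetric groups. -/
theorem good_perm {n : ℕ} (hn : 7 ≤ n) : GoodKer (Equiv.Perm (Fin n)) := by
  refine good_complete (fun z hz => ?_) (aut_inner hn) (fun K _ _ => regularOver_perm K n)
  exact eq_one_of_cent (by omega) z fun g _ => hz g

/-- Wreath products. -/
theorem good_wreath {T : Type} [Group T] [Finite T] {n : ℕ} (h : GoodKer (Fin n → T))
    (hn : 7 ≤ n) : GoodKer (Wr T n) := by
  have hfin : Finite (Wr T n) := finite_wr T n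
  have hch := base_char (T := T) (by omega : 5 ≤ n)
  let e1 : (Fin n → T) ≃* (SemidirectProduct.rightHom : Wr T n →* Equiv.Perm (Fin n)).ker :=
    (MonoidHom.ofInjective (f := (SemidirectProduct.inl : (Fin n → T) →* Wr T n))
      SemidirectProduct.inl_injective).trans
      (MulEquiv.subgroupCongr SemidirectProduct.range_inl_eq_ker_rightHom)
  let e2 : Equiv.Perm (Fin n) ≃*
      Wr T n ⧸ (SemidirectProduct.rightHom : Wr T n →* Equiv.Perm (Fin n)).ker :=
    (QuotientGroup.quotientKerEquivOfSurjective _ SemidirectProduct.rightHom_surjective).symm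
  exact good_char (SemidirectProduct.rightHom : Wr T n →* Equiv.Perm (Fin n)).ker
    (good_iso e1 h) (good_iso e2 (good_perm hn))

theorem UnivF.main {T : Type} [Group T] (h : UnivF T) : Finite T ∧ CL T ∧ GoodKer T := by
  induction h with
  | univ T h => exact h.main
  | power T h n hn ih =>
    obtain ⟨h1, h2, h3⟩ := ih
    exact ⟨finite_wr T n, fun x hx => center_wr h2 x hx,
      good_wreath (good_pi (Fin n) (fun _ => T) (fun _ => h2) (fun _ => h3)) hn⟩
  | prod I T h ih =>
    have h1 : ∀ i, Finite (T i) := fun i => (ih i).1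
    refine ⟨inferInstance, ?_, good_pi I T (fun i => (ih i).2.1) (fun i => (ih i).2.2)⟩
    intro z hz
    classical
    funext i
    refine (ih i).2.1 _ fun g => ?_
    have h2 := congrFun (hz (Pi.mulSingle i g)) i
    rw [Pi.mul_apply, Pi.mul_apply, Pi.mulSingle_eq_same] at h2
    exact h2
  | factor A B h ih =>
    obtain ⟨h1, h2, h3⟩ := ih
    refine ⟨Finite.of_injective (fun a : A => (a, (1 : B))) (fun a b hab => congrArg Prod.fst hab),
      ?_, good_factor h3⟩
    intro z hz
    have h4 : ((z, 1) : A × B) = 1 := by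
      apply h2
      rintro ⟨a, b⟩
      refine Prod.ext (hz a) ?_
      change 1 * b = b * 1
      rw [one_mul, mul_one]
    exact congrArg Prod.fst h4
  | extension T C h h' ih ih' =>
    obtain ⟨h1, h2, h3⟩ := ih
    obtain ⟨h4, h5, h6⟩ := ih'
    have hfin : Finite T := Finite.of_subgroup_quotient C
    refine ⟨hfin, ?_, good_char C h3 h6⟩
    intro z hz
    have h7 : (QuotientGroup.mk' C z) = 1 := by
      apply h5
      intro g
      obtain ⟨g, rfl⟩ := QuotientGroup.mk'_surjective C g
      rw [← map_mul, hz g, map_mul]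
    rw [QuotientGroup.mk'_apply, QuotientGroup.eq_one_iff] at h7
    have h8 : (⟨z, h7⟩ : C) = 1 := by
      apply h2
      intro g
      exact Subtype.ext (hz g)
    exact congrArg Subtype.val h8
  | iso T T' e h ih =>
    obtain ⟨h1, h2, h3⟩ := ih
    exact ⟨Finite.of_equiv _ e.toEquiv, cl_iso e h2, good_iso e h3⟩

/-- Regular solutions over all fields. -/
theorem UnivF.reg {T : Type} [Group T] (h : UnivF T) (K L X : Type) [Field K] [Field L]
    [Algebra K L] [FiniteDimensional K L] [IsGalois K L] [Group X] (α : X →* (L ≃ₐ[K] L))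
    (hα : Function.Surjective α) (hι : Nonempty (α.ker ≃* T)) : RegSol K L X α := by
  have hfin : Finite T := h.main.1
  exact Pool.Agent.TH59.WX.good_all h.main.2.2 K L X α hα hι

/-- Solutions over Hilbertian fields. -/
theorem UnivF.hil {T : Type} [Group T] (h : UnivF T) (K : Type) [Field K] (hK : HilbField K)
    (L X : Type) [Field L] [Algebra K L] [FiniteDimensional K L] [IsGalois K L] [Group X]
    (α : X →* (L ≃ₐ[K] L)) (hα : Function.Surjective α) (hι : Nonempty (α.ker ≃* T)) :
    ProperSol K L X α := by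
  have hfin : Finite T := h.main.1
  have hfinX : Finite X := finite_of_kernel α hι.some.symm
  exact hil_of_reg K L X hK α (h.reg K L X α hα hι)

/-! ### Towers -/

theorem StepF.main {K : Type} [Field K] {W W' : Type} [Group W] [Group W']
    {π : W' →* W} (h : StepF K π) : Finite W → Finite W' ∧ RSK K π := by
  induction h with
  | base π h =>
    intro hW
    exact ⟨h.finite, h.rsk⟩
  | kernel π hs h =>
    intro hW
    obtain ⟨h1, -, h2⟩ := h.main
    have hW' : Finite _ := Pool.Agent.TH444.TW.finite_of_ker π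
    refine ⟨hW', ?_⟩
    intro K' M _ _ _ _ _ _ _ ε
    refine h2 K' M _ _ (ε.symm.surjective.comp hs) ?_
    have h1 : (ε.symm.toMonoidHom.comp π).ker = π.ker := by
      ext x
      rw [MonoidHom.mem_ker, MonoidHom.mem_ker]
      exact map_eq_one_iff ε.symm ε.symm.injective
    exact ⟨MulEquiv.subgroupCongr h1⟩
  | comp π q hp hq ihp ihq =>
    intro hW
    obtain ⟨h1, h2⟩ := ihp hW
    obtain ⟨h3, h4⟩ := ihq h1
    exact ⟨h3, RSK.comp h2 h4⟩
  | quot π q hq hpq ih =>
    intro hW
    obtain ⟨h1, h2⟩ := ih hW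
    exact ⟨Finite.of_surjective q hq, RSK.quot q hq (fun x => rfl) h2⟩

theorem towerF_finite {K : Type} [Field K] (W : ℕ → Type) [∀ i, Group (W i)]
    (π : ∀ i, W (i + 1) →* W i) (hp : ∀ i, StepF K (π i)) (h0 : Finite (W 0)) :
    ∀ i, Finite (W i) := by
  intro i
  induction i with
  | zero => exact h0
  | succ i ih => exact ((hp i).main ih).1

/-- Towers over Hilbertian fields. -/
theorem stepF_hilb {K : Type} [Field K] (hK : HilbField K)
    (W : ℕ → Type) [∀ i, Group (W i)] (π : ∀ i, W (i + 1) →* W i) (hp : ∀ i, StepF K (π i))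
    (L : Type) [Field L] [Algebra K L] [FiniteDimensional K L] [IsGalois K L]
    (e₀ : W 0 ≃* (L ≃ₐ[K] L)) :
    ∃ (F : Type) (_ : Field F) (_ : Algebra K F) (_ : Algebra L F) (_ : IsScalarTower K L F)
      (_ : IsGalois K F) (γ : (F ≃ₐ[K] F) ≃* Lim π),
      (∀ i, IsOpen {σ : F ≃ₐ[K] F | (γ σ).1 i = 1}) ∧
      ∀ (σ : F ≃ₐ[K] F) (x : L),
        σ (algebraMap L F x) = algebraMap L F (e₀ ((γ σ).1 0) x) := by
  have := infinite_of_hilb hK
  have hfin := towerF_finite W π hp (Finite.of_equiv _ e₀.symm.toEquiv)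
  exact Pool.Agent.TH377.IG.tower_spec (spec_hilb hK) W π
    (fun i M _ _ _ _ ε => ((hp i).main (hfin i)).2 K M ε) L e₀

end Run7.h16.UF
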