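import Pool.Agent.N600.UK.Defs

/-!
# A class of groups and a class of homomorphisms (all characteristics)

`UnivF` is the smallest class of groups which
* contains the class `Univ` of the file `N600/UK/Defs`: for example `S_m`, `m ≥ 3`, `m ≠ 6`, and
  `G ≀ S_n` for `G ≠ 1` finite with trivial centre such that `Inn G` has a complement in `Aut G` and
  `n ≥ ((3 |G| + 2)!)^3`,
* contains `T ≀ S_n` for ALL `n ≥ 7` if it contains the nontrivial group `T`,
* is closed under finite direct products and direct factors,
* is closed under characteristic extensions: it contains `T` if it contains `C` and `T / C` for a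
  characteristic subgroup `C` of `T`,
* is closed under isomorphisms.

`StepF K` is the smallest class of homomorphisms of groups which contains the class `Cls K` of the
file `TH444/TW/ClsDef` (it contains the split epimorphisms with finite abelian kernel, the
projections `A^k ⋊ W → W` for the groups `A` which are regular over `K` and actions through
`A ≀ S_k`, ...) and all epimorphisms whose kernel belongs to `UnivF`, and is closed under
compositions and quotients.
-/

set_option autoImplicit false

open Pool.Agent.H391R2 (Wr)
open Pool.Agent.TH444.TW (Cls)
open Pool.Agent.N600.UK (Univ)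

namespace Run7.h16.UF

/-- The class of groups. -/
inductive UnivF : ∀ (T : Type) [Group T], Prop
  /-- the class `Univ` -/
  | univ (T : Type) [Group T] (h : Univ T) : UnivF T
  /-- wreath products -/
  | power (T : Type) [Group T] [Nontrivial T] (h : UnivF T) (n : ℕ) (hn : 7 ≤ n) :
      UnivF (Wr T n)
  /-- direct products -/
  | prod (I : Type) [Finite I] (T : I → Type) [∀ i, Group (T i)] (h : ∀ i, UnivF (T i)) :
      UnivF (∀ i, T i)
  /-- direct factors -/
  | factor (A B : Type) [Group A] [Group B] (h : UnivF (A × B)) : UnivF A
  /-- characteristic extensions -/
  | extension (T : Type) [Group T] (C : Subgroup T) [C.Characteristic] (h : UnivF C)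
      (h' : UnivF (T ⧸ C)) : UnivF T
  /-- isomorphic groups -/
  | iso (T T' : Type) [Group T] [Group T'] (e : T ≃* T') (h : UnivF T) : UnivF T'

/-- The class of homomorphisms. -/
inductive StepF (K : Type) [Field K] : ∀ {W W' : Type} [Group W] [Group W'], (W' →* W) → Prop
  /-- the class `Cls K` -/
  | base {W W' : Type} [Group W] [Group W'] (π : W' →* W) (h : Cls K π) : StepF K π
  /-- all epimorphisms (split or not) whose kernel belongs to `UnivF` -/
  | kernel {W W' : Type} [Group W] [Group W'] (π : W' →* W) (hs : Function.Surjective π)
      (h : UnivF π.ker) : StepF K π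
  /-- compositions -/
  | comp {W W' W'' : Type} [Group W] [Group W'] [Group W''] (π : W' →* W) (q : W'' →* W')
      (hp : StepF K π) (hq : StepF K q) : StepF K (π.comp q)
  /-- quotients -/
  | quot {W W' W'' : Type} [Group W] [Group W'] [Group W''] (π : W' →* W) (q : W'' →* W')
      (hq : Function.Surjective q) (hpq : StepF K (π.comp q)) : StepF K π

end Run7.h16.UF
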